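import Pool.Agent.Run7.h401.YM.Lat

/-!
# An inequality for the flats of a matroid of rank four

`∑_L (h(L) - 2) ≥ W₃ - W₁ - 1`, where `L` runs over the flats of rank two and `h(L)` is the number of
the hyperplanes above `L`; and `W₁ ≤ W₂`.
-/

set_option autoImplicit false
set_option linter.unusedSectionVars false

open Finset

namespace Pool.Agent.Run7.h401.YM

open Classical

variable {α : Type} [Lattice α] [BoundedOrder α] [Fintype α] [GradeMinOrder ℕ α]
  [IsAtomistic α] [IsUpperModularLattice α]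

/-- the elements of rank `k` -/
noncomputable def lev (α : Type) [Lattice α] [Fintype α] [GradeMinOrder ℕ α] (k : ℕ) : Finset α :=
  univ.filter fun x => grade ℕ x = k

theorem mem_lev {x : α} {k : ℕ} : x ∈ lev α k ↔ grade ℕ x = k := by
  simp [lev]

/-- `b` is spanned by elements of `S` -/
def sp (S : Finset α) (b : α) : Prop := ∀ c, (∀ x ∈ S, x ≤ b → x ≤ c) → b ≤ c

theorem sp_mono {S T : Finset α} (h : S ⊆ T) {b : α} (hb : sp S b) : sp T b :=
  fun c hc => hb c fun x hx hxb => hc x (h hx) hxb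

theorem sp_sup {S : Finset α} {x b : α} (hx : x ∈ S) (hb : sp S b) : sp S (x ⊔ b) := by
  intro c hc
  exact sup_le (hc x hx le_sup_left) (hb c fun y hy hyb => hc y hy (hyb.trans le_sup_right))

/-- the span of the elements of `S` below `b` -/
noncomputable def pt (S : Finset α) (b : α) : α := (S.filter fun x => x ≤ b).sup id

theorem pt_le (S : Finset α) (b : α) : pt S b ≤ b :=
  Finset.sup_le fun x hx => (mem_filter.1 hx).2

theorem le_pt {S : Finset α} {b x : α} (hx : x ∈ S) (h : x ≤ b) : x ≤ pt S b :=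
  Finset.le_sup (f := id) (mem_filter.2 ⟨hx, h⟩)

theorem sp_pt (S : Finset α) (b : α) : sp S (pt S b) :=
  fun c hc => Finset.sup_le fun x hx => hc x (mem_filter.1 hx).1
    (le_pt (mem_filter.1 hx).1 (mem_filter.1 hx).2)

theorem g_sup_le {T : Finset α} (hT : ∀ x ∈ T, g x = 1) : g (T.sup id) ≤ T.card := by
  induction T using Finset.induction_on with
  | empty => simp [g_bot]
  | insert a T ha ih =>
    rw [Finset.sup_insert, Finset.card_insert_of_notMem ha]
    have h1 := ih fun x hx => hT x (mem_insert_of_mem hx)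
    by_cases h2 : a ≤ T.sup id
    · have : id a ⊔ T.sup id = T.sup id := sup_eq_right.2 h2
      rw [this]
      omega
    · have := g_sup (hT a (mem_insert_self a T)) h2
      have h3 : g (id a ⊔ T.sup id) = g (T.sup id) + 1 := this
      omega

/-- the hyperplanes above `L` spanned by `S` -/
noncomputable def hh (S : Finset α) (L : α) : Finset α :=
  (lev α 3).filter fun H => L ≤ H ∧ sp S H

theorem two_le_hh {S : Finset α} (hr : g (⊤ : α) = 4) (hS : ∀ x ∈ S, g x = 1) (ht : sp S ⊤)
    {L : α} (hL : g L = 2) (hs : sp S L) : 2 ≤ (hh S L).card := by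
  have key : ∀ b : α, g b < 4 → ∃ x ∈ S, ¬ x ≤ b := by
    intro b hb
    by_contra hcon
    push Not at hcon
    have h1 : (⊤ : α) ≤ b := ht b fun x hx _ => hcon x hx
    have := g_le h1
    omega
  obtain ⟨x, hx, hxL⟩ := key L (by omega)
  have h1 := g_sup (hS x hx) hxL
  obtain ⟨y, hy, hyL⟩ := key (x ⊔ L) (by omega)
  have hyL' : ¬ y ≤ L := fun h => hyL (h.trans le_sup_right)
  have h2 := g_sup (hS y hy) hyL'
  have h3 : ({x ⊔ L, y ⊔ L} : Finset α) ⊆ hh S L := by
    intro z hz
    rw [mem_insert, mem_singleton] at hz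
    unfold hh
    rw [mem_filter, mem_lev]
    rcases hz with rfl | rfl
    · exact ⟨by show g (x ⊔ L) = 3; omega, le_sup_right, sp_sup hx hs⟩
    · exact ⟨by show g (y ⊔ L) = 3; omega, le_sup_right, sp_sup hy hs⟩
  have h4 : x ⊔ L ≠ y ⊔ L := fun h => hyL (h ▸ le_sup_left)
  have h5 := Finset.card_le_card h3
  rw [Finset.card_pair h4] at h5
  exact h5

/-- the quantity of the inequality, for the restriction to `S` -/
noncomputable def ff (S : Finset α) : ℤ :=
  ∑ L ∈ (lev α 2).filter (sp S), (((hh S L).card : ℤ) - 2) -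
    (((lev α 3).filter (sp S)).card : ℤ) + (S.card : ℤ) + 1

theorem ff_step {S : Finset α} (hr : g (⊤ : α) = 4) (hS : ∀ x ∈ S, g x = 1) (ht : sp S ⊤)
    {e : α} (he : g e = 1) (heS : e ∉ S) : ff S ≤ ff (insert e S) := by
  set S' := insert e S with hS'
  have hsub : S ⊆ S' := subset_insert e S
  have hS1 : ∀ x ∈ S', g x = 1 := by
    intro x hx
    rcases mem_insert.1 hx with rfl | h
    · exact he
    · exact hS x h
  have ht' : sp S' (⊤ : α) := sp_mono hsub ht
  set N : Finset α := (lev α 3).filter fun H => sp S' H ∧ ¬ sp S H with hN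
  -- planes
  have h3 : ((lev α 3).filter (sp S')).card = ((lev α 3).filter (sp S)).card + N.card := by
    rw [← Finset.card_union_of_disjoint]
    · congr 1
      ext H
      simp only [hN, mem_union, mem_filter]
      have := @sp_mono α _ _ _ _ _ _ S S' hsub H
      tauto
    · rw [Finset.disjoint_left]
      intro H h1 h2
      exact (mem_filter.1 h2).2.2 (mem_filter.1 h1).2
  -- planes above a line
  have h2 : ∀ L : α, (hh S' L).card = (hh S L).card + (N.filter fun H => L ≤ H).card := by
    intro L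
    rw [← Finset.card_union_of_disjoint]
    · congr 1
      ext H
      simp only [hN, hh, mem_union, mem_filter]
      have := @sp_mono α _ _ _ _ _ _ S S' hsub H
      tauto
    · rw [Finset.disjoint_left]
      intro H h1 h2
      exact (mem_filter.1 (mem_filter.1 h2).1).2.2 (mem_filter.1 h1).2.2
  -- every new plane contains an old line
  have h4 : ∀ H ∈ N, 1 ≤ (((lev α 2).filter (sp S)).filter fun L => L ≤ H).card := by
    intro H hH
    rw [hN, mem_filter, mem_lev] at hH
    obtain ⟨hH1, hH2, hH3⟩ := hH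
    have hH1 : g H = 3 := hH1
    rw [Nat.one_le_iff_ne_zero, ← Nat.pos_iff_ne_zero, Finset.card_pos]
    refine ⟨pt S H, ?_⟩
    rw [mem_filter, mem_filter, mem_lev]
    refine ⟨⟨?_, sp_pt S H⟩, pt_le S H⟩
    have h5 : H ≤ e ⊔ pt S H := by
      refine hH2 _ fun x hx hxH => ?_
      rcases mem_insert.1 hx with rfl | h
      · exact le_sup_left
      · exact (le_pt h hxH).trans le_sup_right
    have h6 : ¬ e ≤ pt S H := by
      intro h7
      rw [sup_eq_right.2 h7] at h5
      exact hH3 ((le_antisymm h5 (pt_le S H)) ▸ sp_pt S H)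
    have h7 := g_sup he h6
    have h8 := g_le h5
    have h9 : g (pt S H) < g H := by
      refine g_lt (lt_of_le_of_ne (pt_le S H) fun h10 => hH3 ?_)
      have := sp_pt S H
      rwa [h10] at this
    show g (pt S H) = 2
    omega
  have h5 : N.card ≤ ∑ L ∈ (lev α 2).filter (sp S), (N.filter fun H => L ≤ H).card := by
    have := Finset.sum_card_bipartiteAbove_eq_sum_card_bipartiteBelow
      (s := (lev α 2).filter (sp S)) (t := N) (fun L H : α => L ≤ H)
    unfold Finset.bipartiteAbove Finset.bipartiteBelow at this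
    rw [this]
    calc N.card = ∑ H ∈ N, 1 := by simp
      _ ≤ _ := Finset.sum_le_sum h4
  have h6 : ∑ L ∈ (lev α 2).filter (sp S), (((hh S' L).card : ℤ) - 2) ≤
      ∑ L ∈ (lev α 2).filter (sp S'), (((hh S' L).card : ℤ) - 2) := by
    refine Finset.sum_le_sum_of_subset_of_nonneg ?_ ?_
    · intro L hL
      rw [mem_filter] at hL ⊢
      exact ⟨hL.1, sp_mono hsub hL.2⟩
    · intro L hL _
      rw [mem_filter, mem_lev] at hL
      have := two_le_hh hr hS1 ht' hL.1 hL.2
      have h7 : (2 : ℤ) ≤ ((hh S' L).card : ℤ) := by exact_mod_cast this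
      linarith
  have h7 : ∑ L ∈ (lev α 2).filter (sp S), (((hh S' L).card : ℤ) - 2) =
      ∑ L ∈ (lev α 2).filter (sp S), (((hh S L).card : ℤ) - 2) +
        ∑ L ∈ (lev α 2).filter (sp S), ((N.filter fun H => L ≤ H).card : ℤ) := by
    rw [← Finset.sum_add_distrib]
    refine Finset.sum_congr rfl fun L _ => ?_
    rw [h2 L]
    push_cast
    ring
  have h8 : (N.card : ℤ) ≤ ∑ L ∈ (lev α 2).filter (sp S), ((N.filter fun H => L ≤ H).card : ℤ) := by
    exact_mod_cast h5
  unfold ff
  rw [h3, hS', Finset.card_insert_of_notMem heS]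
  rw [← hS']
  push_cast
  linarith

theorem ff_base {B : Finset α} (hr : g (⊤ : α) = 4) (hB : ∀ x ∈ B, g x = 1) (ht : sp B ⊤)
    (hc : B.card = 4) : 0 ≤ ff B := by
  have h1 : ((lev α 3).filter (sp B)).card ≤ 4 := by
    have h2 : ((lev α 3).filter (sp B)).card ≤ (powersetCard 3 B).card := by
      refine Finset.card_le_card_of_injOn (fun H => B.filter fun x => x ≤ H) ?_ ?_
      · intro H hH
        rw [mem_coe, mem_filter, mem_lev] at hH
        rw [mem_coe, mem_powersetCard]
        refine ⟨filter_subset _ _, ?_⟩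
        have h3 : H ≤ pt B H := hH.2 _ fun x hx hxH => le_pt hx hxH
        have h4 : g (pt B H) ≤ (B.filter fun x => x ≤ H).card :=
          g_sup_le fun x hx => hB x (mem_filter.1 hx).1
        have h5 := g_le h3
        have h6 : g H = 3 := hH.1
        have h7 : (B.filter fun x => x ≤ H).card < B.card := by
          refine Finset.card_lt_card ((filter_ssubset).2 ?_)
          by_contra hcon
          push Not at hcon
          have := g_le (ht H fun x hx _ => hcon x hx)
          omega
        show (B.filter fun x => x ≤ H).card = 3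
        omega
      · intro H hH H' hH' heq
        rw [mem_coe, mem_filter] at hH hH'
        have heq : (B.filter fun x => x ≤ H) = B.filter fun x => x ≤ H' := heq
        refine le_antisymm (hH.2 H' fun x hx hxH => ?_) (hH'.2 H fun x hx hxH => ?_)
        · exact (mem_filter.1 (heq ▸ mem_filter.2 ⟨hx, hxH⟩ : x ∈ B.filter fun x => x ≤ H')).2
        · exact (mem_filter.1 (heq.symm ▸ mem_filter.2 ⟨hx, hxH⟩ : x ∈ B.filter fun x => x ≤ H)).2
    rw [card_powersetCard, hc] at h2
    exact h2.trans (by decide)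
  have h2 : 0 ≤ ∑ L ∈ (lev α 2).filter (sp B), (((hh B L).card : ℤ) - 2) := by
    refine Finset.sum_nonneg fun L hL => ?_
    rw [mem_filter, mem_lev] at hL
    have := two_le_hh hr hB ht hL.1 hL.2
    have h7 : (2 : ℤ) ≤ ((hh B L).card : ℤ) := by exact_mod_cast this
    linarith
  unfold ff
  have h3 : (((lev α 3).filter (sp B)).card : ℤ) ≤ 4 := by exact_mod_cast h1
  rw [hc]
  push_cast
  linarith

theorem ex_basis (hr : g (⊤ : α) = 4) : ∃ B : Finset α, (∀ x ∈ B, g x = 1) ∧ sp B ⊤ ∧ B.card = 4 := by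
  have key : ∀ b : α, g b < 4 → ∃ x : α, g x = 1 ∧ ¬ x ≤ b := by
    intro b hb
    have h1 : ¬ (⊤ : α) ≤ b := fun h => by have := g_le h; omega
    obtain ⟨x, h2, -, h3⟩ := ex_atom h1
    exact ⟨x, h2, h3⟩
  have hb := g_bot (α := α)
  obtain ⟨x, hx, hx'⟩ := key ⊥ (by omega)
  obtain ⟨y, hy, hy'⟩ := key x (by omega)
  have h1 := g_sup hy hy'
  obtain ⟨z, hz, hz'⟩ := key (y ⊔ x) (by omega)
  have h2 := g_sup hz hz'
  obtain ⟨w, hw, hw'⟩ := key (z ⊔ (y ⊔ x)) (by omega)
  have h3 := g_sup hw hw'
  have e1 : x ≠ y := fun h => hy' (h ▸ le_rfl)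
  have e2 : x ≠ z := fun h => hz' (h ▸ le_sup_right)
  have e3 : y ≠ z := fun h => hz' (h ▸ le_sup_left)
  have e4 : x ≠ w := fun h => hw' (h ▸ (le_sup_right.trans le_sup_right))
  have e5 : y ≠ w := fun h => hw' (h ▸ (le_sup_left.trans le_sup_right))
  have e6 : z ≠ w := fun h => hw' (h ▸ le_sup_left)
  refine ⟨{x, y, z, w}, ?_, ?_, ?_⟩
  · intro v hv
    simp only [mem_insert, mem_singleton] at hv
    rcases hv with rfl | rfl | rfl | rfl <;> assumption
  · intro c hc
    have h4 : w ⊔ (z ⊔ (y ⊔ x)) = ⊤ := eq_of_g le_top (by omega)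
    rw [← h4]
    refine sup_le (hc w (by simp) le_top) (sup_le (hc z (by simp) le_top)
      (sup_le (hc y (by simp) le_top) (hc x (by simp) le_top)))
  · rw [card_insert_of_notMem, card_insert_of_notMem, card_insert_of_notMem, card_singleton]
    · simpa using e6
    · simp [e3, e5]
    · simp [e1, e2, e4]

theorem ff_all (hr : g (⊤ : α) = 4) : 0 ≤ ff (lev α 1) := by
  obtain ⟨B, hB, ht, hc⟩ := ex_basis hr
  have key : ∀ T : Finset α, (∀ x ∈ T, g x = 1) → 0 ≤ ff (B ∪ T) := by
    intro T
    induction T using Finset.induction_on with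
    | empty =>
      intro _
      rw [union_empty]
      exact ff_base hr hB ht hc
    | insert e T he ih =>
      intro hT
      have h1 := ih fun x hx => hT x (mem_insert_of_mem hx)
      rw [union_insert]
      by_cases h2 : e ∈ B ∪ T
      · rw [insert_eq_of_mem h2]
        exact h1
      · refine h1.trans (ff_step hr ?_ (sp_mono subset_union_left ht) (hT e (mem_insert_self e T)) h2)
        intro x hx
        rcases mem_union.1 hx with h | h
        · exact hB x h
        · exact hT x (mem_insert_of_mem h)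
  have h1 := key (lev α 1) fun x hx => mem_lev.1 hx
  rwa [union_eq_right.2 (fun x hx => mem_lev.2 (hB x hx))] at h1

theorem sp_all (b : α) : sp (lev α 1) b := by
  intro c hc
  rw [le_iff_atom_le_imp]
  intro x hx hxb
  exact hc x (mem_lev.2 (atom_iff.1 hx)) hxb

theorem main_ineq (hr : g (⊤ : α) = 4) :
    ((lev α 3).card : ℤ) ≤ ∑ L ∈ lev α 2, ((((lev α 3).filter fun H => L ≤ H).card : ℤ) - 2) +
      ((lev α 1).card : ℤ) + 1 := by
  have h1 := ff_all hr
  unfold ff hh at h1
  rw [Finset.filter_true_of_mem (fun L _ => sp_all L),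
    Finset.filter_true_of_mem (fun L _ => sp_all L)] at h1
  have h2 : ∀ L : α, ((lev α 3).filter fun H => L ≤ H ∧ sp (lev α 1) H) =
      (lev α 3).filter fun H => L ≤ H := by
    intro L
    refine Finset.filter_congr fun H _ => ?_
    exact and_iff_left (sp_all H)
  simp only [h2] at h1
  linarith

/-- the points -/
abbrev Pts (α : Type) [Lattice α] [Fintype α] [GradeMinOrder ℕ α] : Type := {x : α // grade ℕ x = 1}

/-- the lines -/
abbrev Lns (α : Type) [Lattice α] [Fintype α] [GradeMinOrder ℕ α] : Type := {x : α // grade ℕ x = 2}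

instance memInst : Membership (Pts α) (Lns α) := ⟨fun l p => p.1 ≤ l.1⟩

theorem mem_def {p : Pts α} {l : Lns α} : p ∈ l ↔ p.1 ≤ l.1 := Iff.rfl

theorem not_le_of_ne {p q : Pts α} (h : p ≠ q) : ¬ p.1 ≤ q.1 := fun h1 =>
  h (Subtype.ext (eq_of_g h1 (by show grade ℕ q.1 ≤ grade ℕ p.1; rw [p.2, q.2])))

theorem one_le_two (hr : 3 ≤ g (⊤ : α)) : (lev α 1).card ≤ (lev α 2).card := by
  have hnd : Configuration.Nondegenerate (Pts α) (Lns α) := by
    refine ⟨fun l => ?_, fun p => ?_, ?_⟩
    · have h1 : ¬ (⊤ : α) ≤ l.1 := fun h => by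
        have h2 := g_le h
        have h3 : g l.1 = 2 := l.2
        omega
      obtain ⟨x, hx, -, hxl⟩ := ex_atom h1
      exact ⟨⟨x, hx⟩, hxl⟩
    · have hp : g p.1 = 1 := p.2
      have h1 : ¬ (⊤ : α) ≤ p.1 := fun h => by
        have h2 := g_le h
        omega
      obtain ⟨x, hx, -, hxp⟩ := ex_atom h1
      have h2 := g_sup hx hxp
      have h3 : ¬ (⊤ : α) ≤ x ⊔ p.1 := fun h => by
        have h4 := g_le h
        omega
      obtain ⟨y, hy, -, hyl⟩ := ex_atom h3
      have hyx : ¬ y ≤ x := fun h => hyl (h.trans le_sup_left)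
      have h4 := g_sup hy hyx
      refine ⟨⟨y ⊔ x, by show g (y ⊔ x) = 2; omega⟩, fun h5 => ?_⟩
      have h6 : p.1 ≤ y ⊔ x := h5
      have h7 : x ⊔ p.1 ≤ y ⊔ x := sup_le le_sup_right h6
      have h8 := eq_of_g h7 (by omega)
      exact hyl (h8 ▸ le_sup_left)
    · intro p₁ p₂ l₁ l₂ h1 h2 h3 h4
      by_cases h : p₁ = p₂
      · exact Or.inl h
      · right
        have h5 := g_sup p₁.2 (not_le_of_ne h)
        have hp : g p₂.1 = 1 := p₂.2
        have hl1 : g l₁.1 = 2 := l₁.2
        have hl2 : g l₂.1 = 2 := l₂.2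
        have h6 : p₁.1 ⊔ p₂.1 = l₁.1 := eq_of_g (sup_le h1 h2) (by omega)
        have h7 : p₁.1 ⊔ p₂.1 = l₂.1 := eq_of_g (sup_le h3 h4) (by omega)
        exact Subtype.ext (h6.symm.trans h7)
  have hl : Configuration.HasLines (Pts α) (Lns α) :=
    { hnd with
      mkLine := fun {p q} h => ⟨p.1 ⊔ q.1, by
        have h5 := g_sup p.2 (not_le_of_ne h)
        have hq : g q.1 = 1 := q.2
        show g (p.1 ⊔ q.1) = 2
        omega⟩
      mkLine_ax := fun {p q} h => ⟨(le_sup_left : p.1 ≤ p.1 ⊔ q.1), (le_sup_right : q.1 ≤ p.1 ⊔ q.1)⟩ }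
  have h := Configuration.HasLines.card_le (Pts α) (Lns α)
  rw [Fintype.card_subtype, Fintype.card_subtype] at h
  exact h

end Pool.Agent.Run7.h401.YM
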