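import Mathlib

/-!
# Finite geometric lattices: levels and the Möbius function of short intervals
-/

set_option autoImplicit false
set_option linter.unusedSectionVars false

open Finset

namespace Pool.Agent.Run7.h401.YM

variable {α : Type} [Lattice α] [BoundedOrder α] [Fintype α] [GradeMinOrder ℕ α]

/-- rank -/
abbrev g (a : α) : ℕ := grade ℕ a

theorem g_bot : g (⊥ : α) = 0 := grade_bot

theorem g_lt {a b : α} (h : a < b) : g a < g b := grade_strictMono h

theorem g_le {a b : α} (h : a ≤ b) : g a ≤ g b := by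
  rcases h.lt_or_eq with h | h
  · exact (g_lt h).le
  · rw [h]

theorem g_cov {a b : α} (h : a ⋖ b) : g b = g a + 1 :=
  (Nat.covBy_iff_add_one_eq.1 (CovBy.grade ℕ h)).symm

theorem eq_of_g {a b : α} (h : a ≤ b) (hg : g b ≤ g a) : a = b := by
  by_contra hne
  exact absurd (g_lt (lt_of_le_of_ne h hne)) (not_lt.2 hg)

theorem atom_iff {x : α} : IsAtom x ↔ g x = 1 := by
  constructor
  · intro h
    have := g_cov h.bot_covBy
    rw [g_bot] at this
    simpa using this
  · intro h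
    refine ⟨fun h0 => ?_, fun y hy => ?_⟩
    · rw [h0, g_bot] at h; omega
    · have h1 := g_lt hy
      have h2 : g y ≤ g (⊥ : α) := by rw [g_bot]; omega
      exact (eq_of_g bot_le h2).symm

section geom

variable [IsAtomistic α] [IsUpperModularLattice α]

theorem ex_atom {a b : α} (h : ¬ b ≤ a) : ∃ x : α, g x = 1 ∧ x ≤ b ∧ ¬ x ≤ a := by
  rw [le_iff_atom_le_imp] at h
  push Not at h
  obtain ⟨c, h1, h2, h3⟩ := h
  exact ⟨c, atom_iff.1 h1, h2, h3⟩

theorem g_sup {a x : α} (hx : g x = 1) (h : ¬ x ≤ a) : g (x ⊔ a) = g a + 1 := by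
  refine g_cov (covBy_sup_of_inf_covBy_left ?_)
  have h1 : x ⊓ a = ⊥ := by
    rcases (atom_iff.2 hx).le_iff.1 (inf_le_left : x ⊓ a ≤ x) with h2 | h2
    · exact h2
    · exact absurd (inf_eq_left.1 h2) h
  rw [h1]
  exact (atom_iff.2 hx).bot_covBy

theorem two_above {a b : α} (h : a ≤ b) (hg : g a + 2 ≤ g b) : ∃ c d : α, c ≠ d ∧
    a ≤ c ∧ c ≤ b ∧ g c = g a + 1 ∧ a ≤ d ∧ d ≤ b ∧ g d = g a + 1 := by
  have h1 : ¬ b ≤ a := fun h2 => by have := g_le h2; omega
  obtain ⟨x, hx, hxb, hxa⟩ := ex_atom h1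
  have hc := g_sup hx hxa
  have h2 : ¬ b ≤ x ⊔ a := fun h3 => by have := g_le h3; omega
  obtain ⟨y, hy, hyb, hyc⟩ := ex_atom h2
  have hya : ¬ y ≤ a := fun h3 => hyc (h3.trans le_sup_right)
  exact ⟨x ⊔ a, y ⊔ a, fun h3 => hyc (h3 ▸ le_sup_left), le_sup_right, sup_le hxb h, hc,
    le_sup_right, sup_le hyb h, g_sup hy hya⟩

end geom

variable [DecidableEq α] [LocallyFiniteOrder α]

/-- Möbius function -/
noncomputable abbrev mo (a b : α) : ℤ := (IncidenceAlgebra.mu ℤ : IncidenceAlgebra ℤ α) a b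

/-- the elements of rank `k` of `[a, b]` -/
def mid (a b : α) (k : ℕ) : Finset α := (Icc a b).filter fun x => g x = k

theorem mem_mid {a b x : α} {k : ℕ} : x ∈ mid a b k ↔ (a ≤ x ∧ x ≤ b) ∧ g x = k := by
  simp [mid]

theorem mid_left {a b : α} (h : a ≤ b) : mid a b (g a) = {a} := by
  ext x
  rw [mem_mid, mem_singleton]
  constructor
  · rintro ⟨⟨h1, -⟩, h3⟩
    exact (eq_of_g h1 h3.le).symm
  · rintro rfl
    exact ⟨⟨le_rfl, h⟩, rfl⟩

theorem mid_right {a b : α} (h : a ≤ b) : mid a b (g b) = {b} := by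
  ext x
  rw [mem_mid, mem_singleton]
  constructor
  · rintro ⟨⟨-, h1⟩, h3⟩
    exact eq_of_g h1 h3.ge
  · rintro rfl
    exact ⟨⟨h, le_rfl⟩, rfl⟩

theorem sum_lev {a b : α} (n : ℕ) (hn : g b = g a + n) (F : α → ℤ) :
    ∑ x ∈ Icc a b, F x = ∑ k ∈ range (n + 1), ∑ x ∈ mid a b (g a + k), F x := by
  rw [← Finset.sum_fiberwise_of_maps_to (s := Icc a b) (t := range (n + 1))
    (g := fun x => g x - g a) (fun x hx => ?_)]
  · refine Finset.sum_congr rfl fun k _ => Finset.sum_congr ?_ fun _ _ => rfl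
    ext x
    rw [mem_filter, mem_mid, mem_Icc]
    refine and_congr_right fun h => ?_
    have := g_le h.1
    show g x - g a = k ↔ g x = g a + k
    omega
  · rw [mem_Icc] at hx
    rw [mem_range]
    have h1 := g_le hx.1
    have h2 := g_le hx.2
    show g x - g a < n + 1
    omega

theorem sum1 {a b : α} (h : a ≤ b) (hn : g b = g a + 1) (F : α → ℤ) :
    ∑ x ∈ Icc a b, F x = F a + F b := by
  rw [sum_lev 1 hn, sum_range_succ, sum_range_one, Nat.add_zero, mid_left h, ← hn, mid_right h,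
    sum_singleton, sum_singleton]

theorem sum2 {a b : α} (h : a ≤ b) (hn : g b = g a + 2) (F : α → ℤ) :
    ∑ x ∈ Icc a b, F x = F a + ∑ x ∈ mid a b (g a + 1), F x + F b := by
  rw [sum_lev 2 hn, sum_range_succ, sum_range_succ, sum_range_one, Nat.add_zero, mid_left h,
    ← hn, mid_right h, sum_singleton, sum_singleton]

theorem sum3 {a b : α} (h : a ≤ b) (hn : g b = g a + 3) (F : α → ℤ) :
    ∑ x ∈ Icc a b, F x = F a + ∑ x ∈ mid a b (g a + 1), F x + ∑ x ∈ mid a b (g a + 2), F x +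
      F b := by
  rw [sum_lev 3 hn, sum_range_succ, sum_range_succ, sum_range_succ, sum_range_one, Nat.add_zero,
    mid_left h, ← hn, mid_right h, sum_singleton, sum_singleton]

theorem sum4 {a b : α} (h : a ≤ b) (hn : g b = g a + 4) (F : α → ℤ) :
    ∑ x ∈ Icc a b, F x = F a + ∑ x ∈ mid a b (g a + 1), F x + ∑ x ∈ mid a b (g a + 2), F x +
      ∑ x ∈ mid a b (g a + 3), F x + F b := by
  rw [sum_lev 4 hn, sum_range_succ, sum_range_succ, sum_range_succ, sum_range_succ, sum_range_one,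
    Nat.add_zero, mid_left h, ← hn, mid_right h, sum_singleton, sum_singleton]

theorem right_sum {a b : α} (h : a ≠ b) : ∑ x ∈ Icc a b, mo a x = 0 := by
  have := IncidenceAlgebra.sum_Icc_mu_right (𝕜 := ℤ) a b
  rw [if_neg h] at this
  exact this

theorem left_sum {a b : α} (h : a ≠ b) : ∑ x ∈ Icc a b, mo x b = 0 := by
  have := IncidenceAlgebra.sum_Icc_mu_left (𝕜 := ℤ) a b
  rw [if_neg h] at this
  exact this

theorem mo_self (a : α) : mo a a = 1 := IncidenceAlgebra.mu_self a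

theorem ne_of_g {a b : α} (h : g a < g b) : a ≠ b := fun h1 => by rw [h1] at h; omega

theorem mo1 {a b : α} (h : a ≤ b) (hn : g b = g a + 1) : mo a b = -1 := by
  have h1 := right_sum (ne_of_g (by omega : g a < g b))
  rw [sum1 h hn, mo_self] at h1
  linarith

theorem mo2 {a b : α} (h : a ≤ b) (hn : g b = g a + 2) :
    mo a b = ((mid a b (g a + 1)).card : ℤ) - 1 := by
  have h1 := right_sum (ne_of_g (by omega : g a < g b))
  rw [sum2 h hn, mo_self, Finset.sum_congr rfl (fun x hx => mo1 (mem_mid.1 hx).1.1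
    (mem_mid.1 hx).2), Finset.sum_const, nsmul_eq_mul] at h1
  linarith

end Pool.Agent.Run7.h401.YM
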