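import Pool.Agent.Run7.h401.YM.Cmb

/-!
# The Möbius function of a geometric lattice of rank four
-/

set_option autoImplicit false
set_option linter.unusedSectionVars false

open Finset

namespace Pool.Agent.Run7.h401.YM

variable {α : Type} [Lattice α] [BoundedOrder α] [Fintype α] [GradeMinOrder ℕ α]
  [IsAtomistic α] [IsUpperModularLattice α] [DecidableEq α] [LocallyFiniteOrder α]

theorem two_le_mid {a b : α} (h : a ≤ b) (hg : g a + 2 ≤ g b) : 2 ≤ (mid a b (g a + 1)).card := by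
  obtain ⟨c, d, h1, h2, h3, h4, h5, h6, h7⟩ := two_above h hg
  have h8 : ({c, d} : Finset α) ⊆ mid a b (g a + 1) := by
    intro z hz
    rw [mem_insert, mem_singleton] at hz
    rw [mem_mid]
    rcases hz with rfl | rfl
    · exact ⟨⟨h2, h3⟩, h4⟩
    · exact ⟨⟨h5, h6⟩, h7⟩
  have h9 := Finset.card_le_card h8
  rwa [Finset.card_pair h1] at h9

/-- the value of the Möbius function at an interval of length three is negative -/
theorem mo3_neg {a b : α} (h : a ≤ b) (hg : g b = g a + 3) : mo a b ≤ -1 := by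
  have hne : a ≠ b := ne_of_g (by omega)
  have h1 := right_sum hne
  have h2 := left_sum hne
  rw [sum3 h hg, mo_self] at h1 h2
  have e1 : ∑ x ∈ mid a b (g a + 1), mo a x = -((mid a b (g a + 1)).card : ℤ) := by
    rw [Finset.sum_congr rfl (fun x hx => mo1 (mem_mid.1 hx).1.1 (mem_mid.1 hx).2),
      Finset.sum_const, nsmul_eq_mul]
    ring
  have e2 : ∑ x ∈ mid a b (g a + 2), mo x b = -((mid a b (g a + 2)).card : ℤ) := by
    rw [Finset.sum_congr rfl (fun x hx => mo1 (mem_mid.1 hx).1.2 (by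
      have := (mem_mid.1 hx).2
      omega)), Finset.sum_const, nsmul_eq_mul]
    ring
  have e3 : ((mid a b (g a + 2)).card : ℤ) ≤ ∑ x ∈ mid a b (g a + 2), mo a x := by
    have : ∀ x ∈ mid a b (g a + 2), (1 : ℤ) ≤ mo a x := by
      intro x hx
      rw [mem_mid] at hx
      rw [mo2 hx.1.1 hx.2]
      have h3 := two_le_mid hx.1.1 hx.2.ge
      have h4 : (2 : ℤ) ≤ ((mid a x (g a + 1)).card : ℤ) := by exact_mod_cast h3
      linarith
    have h3 := Finset.sum_le_sum this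
    rwa [Finset.sum_const, nsmul_eq_mul, mul_one] at h3
  have e4 : ((mid a b (g a + 1)).card : ℤ) ≤ ∑ x ∈ mid a b (g a + 1), mo x b := by
    have : ∀ x ∈ mid a b (g a + 1), (1 : ℤ) ≤ mo x b := by
      intro x hx
      rw [mem_mid] at hx
      rw [mo2 hx.1.2 (by omega)]
      have h3 := two_le_mid hx.1.2 (by omega)
      have h4 : (2 : ℤ) ≤ ((mid x b (g x + 1)).card : ℤ) := by exact_mod_cast h3
      linarith
    have h3 := Finset.sum_le_sum this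
    rwa [Finset.sum_const, nsmul_eq_mul, mul_one] at h3
  rw [e1] at h1
  rw [e2] at h2
  linarith

theorem mid_bot_top (k : ℕ) : mid (⊥ : α) ⊤ k = lev α k := by
  ext x
  rw [mem_mid, mem_lev]
  exact and_iff_right ⟨bot_le, le_top⟩

section four

variable (hr : g (⊤ : α) = 4)
include hr

theorem top_sum : mo (⊥ : α) ⊤ + ∑ x ∈ lev α 1, mo x ⊤ + ∑ L ∈ lev α 2, mo L ⊤ -
    ((lev α 3).card : ℤ) + 1 = 0 := by
  have hg : g (⊤ : α) = g (⊥ : α) + 4 := by rw [g_bot, hr]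
  have h1 := left_sum (ne_of_g (by rw [hr, g_bot]; omega : g (⊥ : α) < g ⊤))
  rw [sum4 bot_le hg, mo_self, g_bot, mid_bot_top, mid_bot_top, mid_bot_top] at h1
  have e : ∑ x ∈ lev α (0 + 3), mo x ⊤ = -((lev α 3).card : ℤ) := by
    rw [Finset.sum_congr rfl (fun x hx => mo1 le_top (by
      have : g x = 0 + 3 := mem_lev.1 hx
      omega)), Finset.sum_const, nsmul_eq_mul]
    ring
  rw [e] at h1
  simp only [zero_add] at h1
  linarith

theorem line_top {L : α} (hL : g L = 2) : mo L ⊤ = ((mid L ⊤ 3).card : ℤ) - 1 := by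
  rw [mo2 le_top (by omega), hL]

theorem line_bot {L : α} (hL : g L = 2) : mo ⊥ L = ((mid ⊥ L 1).card : ℤ) - 1 := by
  rw [mo2 bot_le (by rw [g_bot, hL]), g_bot]

theorem point_sum {x : α} (hx : g x = 1) : 1 - ((mid x ⊤ 2).card : ℤ) + ∑ H ∈ mid x ⊤ 3, mo x H +
    mo x ⊤ = 0 := by
  have h1 := right_sum (ne_of_g (by omega : g x < g (⊤ : α)))
  rw [sum3 le_top (by omega), mo_self, hx] at h1
  have e : ∑ y ∈ mid x ⊤ (1 + 1), mo x y = -((mid x ⊤ 2).card : ℤ) := by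
    rw [Finset.sum_congr rfl (fun y hy => mo1 (mem_mid.1 hy).1.1 (by
      have := (mem_mid.1 hy).2
      omega)), Finset.sum_const, nsmul_eq_mul]
    ring
  rw [e] at h1
  have e2 : mid x (⊤ : α) (1 + 2) = mid x ⊤ 3 := rfl
  rw [e2] at h1
  linarith

/-- `a₂ - a₁ = W₂ - W₁` -/
theorem second_diff :
    ∑ L ∈ lev α 2, mo L ⊤ * mo ⊥ L +
      ∑ H ∈ lev α 3, (-∑ L ∈ mid ⊥ H 2, mo ⊥ L + ∑ x ∈ mid ⊥ H 1, mo x H) +
      ∑ x ∈ lev α 1, mo x ⊤ = ((lev α 2).card : ℤ) - (lev α 1).card := by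
  classical
  have swap1 : ∑ H ∈ lev α 3, ∑ L ∈ mid ⊥ H 2, mo ⊥ L =
      ∑ L ∈ lev α 2, ∑ H ∈ mid L ⊤ 3, mo ⊥ L := by
    refine Finset.sum_comm' fun H L => ?_
    rw [mem_lev, mem_mid, mem_mid, mem_lev]
    constructor
    · rintro ⟨h1, ⟨-, h2⟩, h3⟩
      exact ⟨⟨⟨h2, le_top⟩, h1⟩, h3⟩
    · rintro ⟨⟨⟨h2, -⟩, h1⟩, h3⟩
      exact ⟨h1, ⟨bot_le, h2⟩, h3⟩
  have swap2 : ∑ H ∈ lev α 3, ∑ x ∈ mid ⊥ H 1, mo x H =
      ∑ x ∈ lev α 1, ∑ H ∈ mid x ⊤ 3, mo x H := by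
    refine Finset.sum_comm' fun H L => ?_
    rw [mem_lev, mem_mid, mem_mid, mem_lev]
    constructor
    · rintro ⟨h1, ⟨-, h2⟩, h3⟩
      exact ⟨⟨⟨h2, le_top⟩, h1⟩, h3⟩
    · rintro ⟨⟨⟨h2, -⟩, h1⟩, h3⟩
      exact ⟨h1, ⟨bot_le, h2⟩, h3⟩
  have swap3 : ∑ x ∈ lev α 1, ((mid x ⊤ 2).card : ℤ) = ∑ L ∈ lev α 2, ((mid ⊥ L 1).card : ℤ) := by
    have : ∑ x ∈ lev α 1, ∑ _L ∈ mid x ⊤ 2, (1 : ℤ) = ∑ L ∈ lev α 2, ∑ _x ∈ mid ⊥ L 1, (1 : ℤ) := by
      refine Finset.sum_comm' fun x L => ?_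
      rw [mem_lev, mem_mid, mem_mid, mem_lev]
      constructor
      · rintro ⟨h1, ⟨h2, -⟩, h3⟩
        exact ⟨⟨⟨bot_le, h2⟩, h1⟩, h3⟩
      · rintro ⟨⟨⟨-, h2⟩, h1⟩, h3⟩
        exact ⟨h1, ⟨h2, le_top⟩, h3⟩
    simpa using this
  have e1 : ∑ L ∈ lev α 2, mo L ⊤ * mo ⊥ L - ∑ L ∈ lev α 2, ∑ H ∈ mid L ⊤ 3, mo ⊥ L =
      -∑ L ∈ lev α 2, (((mid ⊥ L 1).card : ℤ) - 1) := by
    rw [← Finset.sum_sub_distrib, ← Finset.sum_neg_distrib]
    refine Finset.sum_congr rfl fun L hL => ?_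
    rw [mem_lev] at hL
    rw [Finset.sum_const, nsmul_eq_mul, line_top hr hL, line_bot hr hL]
    ring
  have e2 : ∑ x ∈ lev α 1, ∑ H ∈ mid x ⊤ 3, mo x H + ∑ x ∈ lev α 1, mo x ⊤ =
      ∑ x ∈ lev α 1, (((mid x ⊤ 2).card : ℤ) - 1) := by
    rw [← Finset.sum_add_distrib]
    refine Finset.sum_congr rfl fun x hx => ?_
    rw [mem_lev] at hx
    have := point_sum hr hx
    linarith
  rw [Finset.sum_sub_distrib] at e1 e2
  rw [Finset.sum_add_distrib, Finset.sum_neg_distrib, swap1, swap2]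
  rw [Finset.sum_const, nsmul_eq_mul, mul_one] at e1 e2
  rw [swap3] at e2
  linarith

theorem first_diff : -∑ x ∈ lev α 1, mo x ⊤ - mo (⊥ : α) ⊤ =
    ∑ L ∈ lev α 2, (((mid L ⊤ 3).card : ℤ) - 1) - ((lev α 3).card : ℤ) + 1 := by
  have h1 := top_sum hr
  have h2 : ∑ L ∈ lev α 2, mo L (⊤ : α) = ∑ L ∈ lev α 2, (((mid L ⊤ 3).card : ℤ) - 1) :=
    Finset.sum_congr rfl fun L hL => line_top hr (mem_lev.1 hL)
  rw [h2] at h1
  linarith

/-- `a₁ - a₀ ≥ a₂ - a₁` -/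
theorem concave : ((lev α 2).card : ℤ) - (lev α 1).card ≤ -∑ x ∈ lev α 1, mo x ⊤ - mo (⊥ : α) ⊤ := by
  classical
  rw [first_diff hr]
  have h1 := main_ineq hr
  have h2 : ∀ L ∈ lev α 2, (((lev α 3).filter fun H => L ≤ H).card : ℤ) = (mid L ⊤ 3).card := by
    intro L _
    congr 2
    ext H
    rw [mem_filter, mem_lev, mem_mid]
    constructor
    · rintro ⟨h3, h4⟩
      exact ⟨⟨h4, le_top⟩, h3⟩
    · rintro ⟨⟨h4, -⟩, h3⟩
      exact ⟨h3, h4⟩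
  have h3 : ∑ L ∈ lev α 2, ((((lev α 3).filter fun H => L ≤ H).card : ℤ) - 2) =
      ∑ L ∈ lev α 2, (((mid L ⊤ 3).card : ℤ) - 1) - ((lev α 2).card : ℤ) := by
    have : ((lev α 2).card : ℤ) = ∑ L ∈ lev α 2, (1 : ℤ) := by simp
    rw [this, ← Finset.sum_sub_distrib]
    refine Finset.sum_congr rfl fun L hL => ?_
    rw [h2 L hL]
    ring
  rw [h3] at h1
  linarith

end four

end Pool.Agent.Run7.h401.YM
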